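import Pool.Agent.Helper54.FP.Inst

/-!
# FP-5: patching of two `FM` structures with the same matrix
-/

set_option autoImplicit false

namespace Pool.Agent.Helper54.FP

section
variable {p : ℕ} [Fact p.Prime] {G : Type} [Group G] [Fintype G] [DecidableEq G]

private theorem patch_sym_closure {R0 Ω : Type} [CommRing R0] [Field Ω] {φ0 : R0 →+* Ω}
    {Y : Matrix G G Ω} {H1 H2 : Subgroup G}
    (s1 : ∀ g ∈ H1, ∀ F, ev φ0 Y F = 0 → ev φ0 (actM g Y) F = 0)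
    (s2 : ∀ g ∈ H2, ∀ F, ev φ0 Y F = 0 → ev φ0 (actM g Y) F = 0) :
    ∀ g ∈ H1 ⊔ H2, ∀ F, ev φ0 Y F = 0 → ev φ0 (actM g Y) F = 0 := by
  have hmul : ∀ g h : G, (∀ F, ev φ0 Y F = 0 → ev φ0 (actM g Y) F = 0) →
      (∀ F, ev φ0 Y F = 0 → ev φ0 (actM h Y) F = 0) →
      (∀ F, ev φ0 Y F = 0 → ev φ0 (actM (g * h) Y) F = 0) := by
    intro g h hg hh F hF
    rw [← actM_actM h g, ← ev_sh]
    apply hg
    rw [ev_sh]
    exact hh F hF
  have hone : ∀ F, ev φ0 Y F = 0 → ev φ0 (actM (1 : G) Y) F = 0 := by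
    intro F hF
    rwa [actM_one]
  have hpow : ∀ (g : G) (n : ℕ), (∀ F, ev φ0 Y F = 0 → ev φ0 (actM g Y) F = 0) →
      (∀ F, ev φ0 Y F = 0 → ev φ0 (actM (g ^ n) Y) F = 0) := by
    intro g n hg
    induction n with
    | zero => simp
    | succ n ih =>
      rw [pow_succ]
      exact hmul _ _ ih hg
  intro g hg
  rw [Subgroup.sup_eq_closure] at hg
  induction hg using Subgroup.closure_induction with
  | mem x hx =>
    rcases hx with hx | hx
    · exact s1 x hx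
    · exact s2 x hx
  | one => exact hone
  | mul x y _ _ hx hy => exact hmul x y hx hy
  | inv x _ hx =>
    have h1 : x⁻¹ = x ^ (Fintype.card G - 1) := by
      apply inv_eq_of_mul_eq_one_right
      rw [← pow_succ', Nat.sub_add_cancel Fintype.card_pos, pow_card_eq_one]
    rw [h1]
    exact hpow x _ hx

private theorem patch_inv {R Ω : Type} [CommRing R] [Field Ω] (φ : R →+* Ω)
    (Ψ Ψ' : Matrix G G R) (h : Ψ * Ψ' = 1) : Ψ'.map φ = (Ψ.map φ)⁻¹ := by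
  symm
  apply Matrix.inv_eq_right_inv
  rw [← Matrix.map_mul, h]
  ext i j
  by_cases hij : i = j
  · subst hij; simp
  · simp [Matrix.one_apply_ne hij]

theorem fm_patch {R0 R1 R2 Ω : Type} [CommRing R0] [CommRing R1] [CommRing R2] [Field Ω]
    [CharP Ω p] {φ0 : R0 →+* Ω} {φ1 : R1 →+* Ω} {φ2 : R2 →+* Ω} (γ1 : R0 →+* R1)
    (γ2 : R0 →+* R2) (hγ1 : φ1.comp γ1 = φ0) (hγ2 : φ2.comp γ2 = φ0)
    (hφ0 : Function.Injective φ0)
    (hint : ∀ (r1 : R1) (r2 : R2), φ1 r1 = φ2 r2 → ∃ r0 : R0, φ0 r0 = φ1 r1)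
    {Y : Matrix G G Ω} {H1 H2 : Subgroup G} (h1 : FM p φ1 Y H1) (h2 : FM p φ2 Y H2) :
    FM p φ0 Y (H1 ⊔ H2) := by
  refine ⟨h1.unit, ?_, ?_, ?_⟩
  · obtain ⟨Ψ1, hu1, hY1⟩ := h1.frob
    obtain ⟨Ψ2, hu2, hY2⟩ := h2.frob
    have hYu := h1.unit
    have hdet : IsUnit Y.det := (Matrix.isUnit_iff_isUnit_det Y).mp hYu
    have e12 : Ψ1.map φ1 = Ψ2.map φ2 := by
      have h3 : Ψ1.map φ1 * Y = Ψ2.map φ2 * Y := hY1.symm.trans hY2
      have h4 := congrArg (fun M => M * Y⁻¹) h3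
      simpa [Matrix.mul_assoc, Matrix.mul_nonsing_inv _ hdet] using h4
    have d1 : IsUnit Ψ1.det := (Matrix.isUnit_iff_isUnit_det Ψ1).mp hu1
    have d2 : IsUnit Ψ2.det := (Matrix.isUnit_iff_isUnit_det Ψ2).mp hu2
    have e12' : (Ψ1⁻¹).map φ1 = (Ψ2⁻¹).map φ2 := by
      rw [patch_inv φ1 Ψ1 Ψ1⁻¹ (Matrix.mul_nonsing_inv _ d1),
        patch_inv φ2 Ψ2 Ψ2⁻¹ (Matrix.mul_nonsing_inv _ d2), e12]
    have a0 : ∀ i j, ∃ r0 : R0, φ0 r0 = φ1 (Ψ1 i j) := by
      intro i j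
      exact hint (Ψ1 i j) (Ψ2 i j) (congrFun (congrFun e12 i) j)
    have b0 : ∀ i j, ∃ r0 : R0, φ0 r0 = φ1 (Ψ1⁻¹ i j) := by
      intro i j
      exact hint (Ψ1⁻¹ i j) (Ψ2⁻¹ i j) (congrFun (congrFun e12' i) j)
    choose A hA using a0
    choose B hB using b0
    have hAm : (Matrix.of A).map φ0 = Ψ1.map φ1 := by
      ext i j
      exact hA i j
    have hBm : (Matrix.of B).map φ0 = (Ψ1⁻¹).map φ1 := by
      ext i j
      exact hB i j
    have hAB : Matrix.of A * Matrix.of B = 1 := by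
      have h5 : (Matrix.of A * Matrix.of B).map φ0 = (1 : Matrix G G R0).map φ0 := by
        rw [Matrix.map_mul, hAm, hBm, ← Matrix.map_mul, Matrix.mul_nonsing_inv _ d1]
        ext i j
        by_cases hij : i = j
        · subst hij; simp
        · simp [Matrix.one_apply_ne hij]
      ext i j
      exact hφ0 (congrFun (congrFun h5 i) j)
    refine ⟨Matrix.of A, ?_, ?_⟩
    · exact IsUnit.of_mul_eq_one _ hAB
    · rw [hAm]
      exact hY1
  · apply patch_sym_closure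
    · intro g hg F hF
      have h := h1.sym g hg (MvPolynomial.map γ1 F) (by rw [ev_mapCoeff, hγ1]; exact hF)
      rwa [ev_mapCoeff, hγ1] at h
    · intro g hg F hF
      have h := h2.sym g hg (MvPolynomial.map γ2 F) (by rw [ev_mapCoeff, hγ2]; exact hF)
      rwa [ev_mapCoeff, hγ2] at h
  · intro F hF
    obtain ⟨r1, hr1⟩ := h1.fix (MvPolynomial.map γ1 F) (by
      intro g hg
      rw [ev_mapCoeff, ev_mapCoeff, hγ1]
      exact hF g (Subgroup.mem_sup_left hg))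
    obtain ⟨r2, hr2⟩ := h2.fix (MvPolynomial.map γ2 F) (by
      intro g hg
      rw [ev_mapCoeff, ev_mapCoeff, hγ2]
      exact hF g (Subgroup.mem_sup_right hg))
    rw [ev_mapCoeff, hγ1] at hr1
    rw [ev_mapCoeff, hγ2] at hr2
    obtain ⟨r0, hr0⟩ := hint r1 r2 (hr1.symm.trans hr2)
    exact ⟨r0, by rw [hr1, hr0]⟩

end

end Pool.Agent.Helper54.FP
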